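import Pool.Agent.W307.QF.Stm

/-!
# AVGA: the moments of the twists, from a counting bound (model: `avgk_of` of helper925)
-/

set_option autoImplicit false

namespace W440.QF

open Finset Polynomial Pool.Agent.W262.RK Pool.Agent.W307.RT Pool.Agent.W307.RS
  Pool.Agent.W307.QF

section

variable {J : Type} [Fintype J] [DecidableEq J]

/-- the quotient of the weights -/
noncomputable def ph (n c : ℕ) (e : ℤ) (d : ℕ) : ℝ :=
  ∏ p ∈ d.primeFactors, (|((p : ℝ) - n) / ((p : ℝ) - c)| * (re e p : ℝ))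

theorem ph_nonneg (n c : ℕ) (e : ℤ) (d : ℕ) : 0 ≤ ph n c e d :=
  prod_nonneg fun _ _ => mul_nonneg (abs_nonneg _) (Nat.cast_nonneg _)

theorem re_le (e : ℤ) (p : ℕ) : re e p ≤ 2 := by
  unfold re
  rcases jacobiSym.trichotomy e p with h | h | h <;> rw [h] <;> decide

theorem mem_PP {z y d p : ℕ} (hd : d ∈ (PP z y).divisors) (hp : p ∈ d.primeFactors) : z < p := by
  have h1 : p ∣ PP z y := (Nat.dvd_of_mem_primeFactors hp).trans (Nat.dvd_of_mem_divisors hd)
  have hpp := Nat.prime_of_mem_primeFactors hp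
  unfold PP at h1
  obtain ⟨q, hq, hpq⟩ := (Prime.dvd_finset_prod_iff hpp.prime _).1 h1
  unfold PS at hq
  rw [mem_filter, mem_Ioc] at hq
  have := (Nat.prime_dvd_prime_iff_eq hpp hq.2).1 hpq
  omega

theorem ph_gw {n c z y d : ℕ} (e : ℤ) (hnc : n ≤ c) (hz : 4 * c + 4 ≤ z)
    (hd : d ∈ (PP z y).divisors) : ph n c e d * gw 1 n d = gw 1 c d * rr (re e) d := by
  unfold ph gw rr
  rw [← prod_mul_distrib, ← prod_mul_distrib]
  refine prod_congr rfl fun p hp => ?_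
  have h1 := mem_PP hd hp
  have h2 : (c : ℝ) + 1 ≤ (p : ℝ) := by
    have : c + 1 ≤ p := by omega
    exact_mod_cast this
  have h3 : (n : ℝ) + 1 ≤ (p : ℝ) := by
    have : n + 1 ≤ p := by omega
    exact_mod_cast this
  have h4 : 0 < (p : ℝ) - c := by linarith
  have h5 : 0 < (p : ℝ) - n := by linarith
  rw [abs_of_nonneg (by positivity)]
  field_simp

theorem gw_nonneg {n z y d : ℕ} (hz : 4 * n + 4 ≤ z) (hd : d ∈ (PP z y).divisors) :
    0 ≤ gw 1 n d := by
  unfold gw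
  refine prod_nonneg fun p hp => ?_
  have h1 := mem_PP hd hp
  have h3 : (n : ℝ) + 1 ≤ (p : ℝ) := by
    have : n + 1 ≤ p := by omega
    exact_mod_cast this
  have h5 : 0 < (p : ℝ) - n := by linarith
  positivity

theorem ph_mul {n c z y s e' : ℕ} (e : ℤ) (hnc : n ≤ c) (hz : 4 * c + 4 ≤ z)
    (hd : s * e' ∈ (PP z y).divisors) :
    ph n c e (s * e') ≤ 4 ^ e'.primeFactors.card * ph n c e s := by
  have hne : s * e' ≠ 0 := by
    intro h
    rw [h] at hd
    exact absurd (Nat.dvd_of_mem_divisors hd) (by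
      intro h0
      exact (Nat.mem_divisors.1 hd).2 (Nat.eq_zero_of_zero_dvd h0))
  have hsf : Squarefree (s * e') := by
    refine Squarefree.squarefree_of_dvd (Nat.dvd_of_mem_divisors hd) ?_
    unfold PP
    refine Finset.squarefree_prod_of_pairwise_isCoprime ?_ ?_
    · intro p hp q hq hpq
      unfold PS at hp hq
      rw [mem_coe, mem_filter] at hp hq
      exact Nat.coprime_iff_isRelPrime.1 ((Nat.coprime_primes hp.2 hq.2).2 hpq)
    · intro p hp
      unfold PS at hp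
      exact (mem_filter.1 hp).2.squarefree
  have hco : Nat.Coprime s e' := Nat.coprime_of_squarefree_mul hsf
  have h1 : (s * e').primeFactors = s.primeFactors ∪ e'.primeFactors :=
    Nat.Coprime.primeFactors_mul hco
  have h2 : Disjoint s.primeFactors e'.primeFactors := hco.disjoint_primeFactors
  have h3 : ph n c e (s * e') = ph n c e s * ph n c e e' := by
    unfold ph
    rw [h1, prod_union h2]
  have h4 : ph n c e e' ≤ 4 ^ e'.primeFactors.card := by
    unfold ph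
    rw [← prod_const]
    refine prod_le_prod (fun _ _ => mul_nonneg (abs_nonneg _) (Nat.cast_nonneg _)) fun p hp => ?_
    have hp' : p ∈ (s * e').primeFactors := by
      rw [h1]
      exact mem_union_right _ hp
    have h5 := mem_PP hd hp'
    have h6 : 2 * (c : ℝ) + 1 ≤ (p : ℝ) := by
      have : 2 * c + 1 ≤ p := by omega
      exact_mod_cast this
    have h7 : (n : ℝ) ≤ c := by exact_mod_cast hnc
    have hn0 : (0 : ℝ) ≤ n := Nat.cast_nonneg n
    have hc0 : (0 : ℝ) ≤ c := Nat.cast_nonneg c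
    have h8 : 0 < (p : ℝ) - c := by linarith
    have h9 : 0 < (p : ℝ) - n := by linarith
    rw [abs_of_nonneg (by positivity)]
    have h10 : ((p : ℝ) - n) / ((p : ℝ) - c) ≤ 2 := by
      rw [div_le_iff₀ h8]
      linarith
    have h11 : (re e p : ℝ) ≤ 2 := by exact_mod_cast re_le e p
    calc ((p : ℝ) - n) / ((p : ℝ) - c) * (re e p : ℝ) ≤ 2 * 2 :=
          mul_le_mul h10 h11 (Nat.cast_nonneg _) (by norm_num)
      _ = 4 := by norm_num
  rw [h3, mul_comm]
  exact mul_le_mul_of_nonneg_right h4 (ph_nonneg _ _ _ _)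

theorem P3_c3 (s : J → ℕ) : P3 (c3 J) s = (∏ j, s j).primeFactors := by
  unfold P3 c3
  simp

theorem tup_mem {z y : ℕ} {s : J → ℕ} (hs : s ∈ Tup J z y) (j : J) : s j ∈ (PP z y).divisors := by
  unfold Tup at hs
  rw [mem_filter, Fintype.mem_piFinset] at hs
  exact hs.1 j

end

theorem avga_gen (hant : ANTU) (hsub : SUBBK) (hrank : RANKE) (hma : MAE) : AVGA := by
  intro J _ _ Ω Θ T L f S a e c B k0 ha ha2 he hk0 hJc hL hS hsmall hX1 hz1
  obtain ⟨X1, hX1⟩ := hX1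
  obtain ⟨z1, hz1⟩ := hz1
  obtain ⟨κ, hκ⟩ : ∃ κ : J → Fin 3 → ℤ, κ = fun _ => a := ⟨_, rfl⟩
  have hκ0 : ∀ j k, κ j k ≠ 0 := by
    intro j k
    rw [hκ]
    exact ha k
  obtain ⟨z0, hz0⟩ := hma J k0 κ e c hk0 hκ0 he
  set n := Fintype.card J with hn
  set z : ℕ := z0 + z1 + (4 * c + 4) + ∑ k, (a k).natAbs with hz
  have haz : ∀ k, (a k).natAbs ≤ z := by
    intro k
    have h1 := single_le_sum (f := fun k => (a k).natAbs) (fun _ _ => Nat.zero_le _) (mem_univ k)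
    omega
  have hκz : ∀ j k, (κ j k).natAbs ≤ z := by
    intro j k
    rw [hκ]
    exact haz k
  have hz2 : 2 ≤ z := by omega
  have hzc : 4 * c + 4 ≤ z := by omega
  have hzn : 4 * n + 4 ≤ z := by omega
  obtain ⟨C', hC'⟩ := hz0 z (by omega)
  obtain ⟨hGd, C, D, A, K, y0, hC0, hD1, hA1, hK1, hcn⟩ := hz1 z (by omega)
  -- the summand
  let r : Θ → Ω → ℝ := fun θ ω => ((2 : ℝ) ^ Module.finrank ℤ
    (EAB (a 0 * ∏ j, f θ ω j) (a 1 * ∏ j, f θ ω j)).toAffine.Point) ^ k0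
  have hr0 : ∀ θ ω, 0 ≤ r θ ω := fun θ ω => by positivity
  -- the majorant
  let G : (J → ℕ) → ℝ := fun s => NBK k0 κ s * ∏ j, ph n c (e j) (s j)
  have hNB0 : ∀ s, 0 ≤ NBK k0 κ s := by
    intro s
    unfold NBK
    exact mul_nonneg (by positivity) (sum_nonneg fun _ _ => pow_nonneg (Nat.cast_nonneg _) _)
  have hGw : ∀ y, ∀ s ∈ Tup J z y, G s * ∏ j, gw 1 n (s j) =
      NBK k0 κ s * ∏ j, (gw 1 c (s j) * rr (re (e j)) (s j)) := by
    intro y s hs
    show NBK k0 κ s * (∏ j, ph n c (e j) (s j)) * ∏ j, gw 1 n (s j) = _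
    rw [mul_assoc, ← prod_mul_distrib]
    congr 1
    refine prod_congr rfl fun j _ => ?_
    exact ph_gw (e j) hJc hzc (tup_mem hs j)
  have hA'1 : 1 ≤ A * (4 * 4 ^ k0) := by
    have h1 : (1 : ℝ) ≤ 4 ^ k0 := one_le_pow₀ (by norm_num)
    nlinarith
  refine hant J Ω Θ T L f S z G r (A * (4 * 4 ^ k0))
    (C * (4 ^ (z + 2)) ^ k0) C' (D * ((4 ^ B) ^ n) ^ k0) K (y0 + X1 + 1) (by omega) hL hS
    hsmall hGd (fun s => mul_nonneg (hNB0 s) (prod_nonneg fun j _ => ph_nonneg _ _ _ _)) hr0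
    hA'1 (by positivity) ?_ hK1 ?_ ?_ ?_
  · have h1 : (1 : ℝ) ≤ ((4 ^ B) ^ n) ^ k0 :=
      one_le_pow₀ (one_le_pow₀ (one_le_pow₀ (by norm_num)))
    nlinarith
  · -- growth
    intro y hy s e' hse
    have h1 := hsub J k0 κ z y hz2 hκ0 hκz s e' hse
    have h2 : ∏ j, ph n c (e j) (s j * e' j) ≤
        4 ^ (∑ j, (e' j).primeFactors.card) * ∏ j, ph n c (e j) (s j) := by
      rw [← prod_pow_eq_pow_sum, ← prod_mul_distrib]
      refine prod_le_prod (fun j _ => ph_nonneg _ _ _ _) fun j _ => ?_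
      exact ph_mul (e j) hJc hzc (tup_mem hse j)
    show NBK k0 κ (fun j => s j * e' j) * ∏ j, ph n c (e j) (s j * e' j) ≤ _
    calc NBK k0 κ (fun j => s j * e' j) * ∏ j, ph n c (e j) (s j * e' j)
        ≤ ((4 ^ k0 : ℝ) ^ (∑ j, (e' j).primeFactors.card) * NBK k0 κ s) *
          (4 ^ (∑ j, (e' j).primeFactors.card) * ∏ j, ph n c (e j) (s j)) :=
          mul_le_mul h1 h2 (prod_nonneg fun j _ => ph_nonneg _ _ _ _)
            (mul_nonneg (by positivity) (hNB0 s))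
      _ = (4 * 4 ^ k0 : ℝ) ^ (∑ j, (e' j).primeFactors.card) *
          (NBK k0 κ s * ∏ j, ph n c (e j) (s j)) := by
          rw [mul_pow]
          ring
      _ ≤ (A * (4 * 4 ^ k0)) ^ (∑ j, (e' j).primeFactors.card) *
          (NBK k0 κ s * ∏ j, ph n c (e j) (s j)) := by
          refine mul_le_mul_of_nonneg_right ?_
            (mul_nonneg (hNB0 s) (prod_nonneg fun j _ => ph_nonneg _ _ _ _))
          refine pow_le_pow_left₀ (by positivity) ?_ _
          have h1 : (0 : ℝ) ≤ 4 * 4 ^ k0 := by positivity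
          nlinarith
  · -- the main average
    intro y hy
    refine le_trans (le_of_eq ?_) (hC' y hy)
    exact sum_congr rfl fun s hs => hGw y s hs
  -- the local majorant
  intro θ y Y k hy0 hzy hyK hk s hs v hv u hu h8 T' hT' hval
  have hy00 : y0 ≤ y := by omega
  have hyL : y ≤ L θ := le_trans (Nat.le_self_pow (by omega) y) hyK
  set g : Finset ℕ → ℝ := fun E => (NL (∏ j, s j) (LLs (c3 J) κ s E) : ℝ) ^ k0 with hg
  have hg0 : ∀ E, 0 ≤ g E := fun E => pow_nonneg (Nat.cast_nonneg _) _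
  have h1 : ∀ ω ∈ T', r θ ω ≤
      (4 ^ (z + 2)) ^ k0 * (((4 ^ B) ^ n) ^ k0) ^ k *
        (4 ^ k0) ^ (∑ j, (v j).primeFactors.card) * g (ng (∏ j, s j) (∏ j, f θ ω j)) := by
    intro ω hω
    have hωT := hT' hω
    obtain ⟨hts, htv, _⟩ := hval ω hω
    have hr := hrank J a z y (L θ) k B (f θ ω) hz2 (hGd θ ω hωT) ha haz ha2
      (hX1 θ (by omega) ω hωT) (hL θ) (by omega) hk
    rw [hts, htv, ← hn] at hr
    have hr' : (2 : ℝ) ^ Module.finrank ℤ (EAB (a 0 * ∏ j, f θ ω j)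
        (a 1 * ∏ j, f θ ω j)).toAffine.Point ≤
        4 ^ (z + 2) * ((4 ^ B) ^ n) ^ k * 4 ^ (∑ j, (v j).primeFactors.card) *
          (NL (∏ j, s j) (LLs (c3 J) κ s (ng (∏ j, s j) (∏ j, f θ ω j))) : ℝ) := by
      rw [hκ]
      exact_mod_cast hr
    refine (pow_le_pow_left₀ (by positivity) hr' k0).trans (le_of_eq ?_)
    rw [hg]
    simp only [mul_pow]
    rw [← pow_mul 4 (∑ j, (v j).primeFactors.card) k0, ← pow_mul 4 k0, mul_comm k0,
      ← pow_mul ((4 ^ B) ^ n) k k0, ← pow_mul ((4 ^ B) ^ n) k0 k, mul_comm k k0]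
  have hneg : ∀ ω ∈ T', ng (∏ j, s j) (∏ j, f θ ω j) ∈ (P3 (c3 J) s).powerset := by
    intro t _
    rw [mem_powerset, P3_c3]
    exact filter_subset _ _
  have h2 : ∑ ω ∈ T', g (ng (∏ j, s j) (∏ j, f θ ω j)) =
      ∑ E ∈ (P3 (c3 J) s).powerset,
        ((T'.filter (fun ω => ng (∏ j, s j) (∏ j, f θ ω j) = E)).card : ℝ) * g E := by
    rw [← sum_fiberwise_of_maps_to hneg]
    refine sum_congr rfl fun E _ => ?_
    rw [← nsmul_eq_mul, ← sum_const]
    refine sum_congr rfl fun t ht => ?_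
    rw [(mem_filter.1 ht).2]
  set Q : ℝ := C * D ^ k * S θ * (1 / 2) ^ (∏ j, s j).primeFactors.card *
      (∏ j, (gw 1 c (s j) * rr (re (e j)) (s j))) *
      (∏ j, A ^ (v j).primeFactors.card * (gw 1 n (v j) / v j)) *
      (∏ j, 1 / (u j : ℝ)) / (Real.log y) ^ n with hQ
  have h3 : ∀ E ∈ (P3 (c3 J) s).powerset,
      ((T'.filter (fun ω => ng (∏ j, s j) (∏ j, f θ ω j) = E)).card : ℝ) * g E ≤ Q * g E := by
    intro E _
    refine mul_le_mul_of_nonneg_right ?_ (hg0 E)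
    refine hcn θ y Y k hy00 hzy hyK hk s hs v hv u hu h8 E _ ((filter_subset _ _).trans hT') ?_
    intro ω hω
    rw [mem_filter] at hω
    obtain ⟨a1, a2, a3⟩ := hval ω hω.1
    exact ⟨a1, a2, a3, hω.2⟩
  have hlog : 0 ≤ Real.log y := Real.log_natCast_nonneg y
  have hv0 : ∀ j, 0 ≤ gw 1 n (v j) / (v j : ℝ) := fun j =>
    div_nonneg (gw_nonneg hzn (tup_mem hv j)) (Nat.cast_nonneg _)
  have hNBe : NBK k0 κ s = (1 / 2) ^ (P3 (c3 J) s).card * ∑ E ∈ (P3 (c3 J) s).powerset, g E := rfl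
  have hs0 : 0 ≤ NBK k0 κ s * ∏ j, (gw 1 c (s j) * rr (re (e j)) (s j)) := by
    rw [← hGw y s hs]
    refine mul_nonneg (mul_nonneg (hNB0 s) (prod_nonneg fun j _ => ph_nonneg _ _ _ _)) ?_
    exact prod_nonneg fun j _ => gw_nonneg hzn (tup_mem hs j)
  have hvA : (4 ^ k0 : ℝ) ^ (∑ j, (v j).primeFactors.card) *
      (∏ j, A ^ (v j).primeFactors.card * (gw 1 n (v j) / v j)) ≤
      ∏ j, (A * (4 * 4 ^ k0)) ^ (v j).primeFactors.card * (gw 1 n (v j) / v j) := by
    rw [← prod_pow_eq_pow_sum, ← prod_mul_distrib]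
    refine prod_le_prod (fun j _ => ?_) fun j _ => ?_
    · have := hv0 j
      positivity
    · rw [← mul_assoc, ← mul_pow]
      refine mul_le_mul_of_nonneg_right ?_ (hv0 j)
      refine pow_le_pow_left₀ (by positivity) ?_ _
      have h1 : (0 : ℝ) ≤ A * 4 ^ k0 := by positivity
      nlinarith
  calc ∑ ω ∈ T', r θ ω
      ≤ ∑ ω ∈ T', (4 ^ (z + 2)) ^ k0 * (((4 ^ B) ^ n) ^ k0) ^ k *
        (4 ^ k0) ^ (∑ j, (v j).primeFactors.card) * g (ng (∏ j, s j) (∏ j, f θ ω j)) :=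
        sum_le_sum h1
    _ = (4 ^ (z + 2)) ^ k0 * (((4 ^ B) ^ n) ^ k0) ^ k *
        (4 ^ k0) ^ (∑ j, (v j).primeFactors.card) *
          ∑ E ∈ (P3 (c3 J) s).powerset,
            ((T'.filter (fun ω => ng (∏ j, s j) (∏ j, f θ ω j) = E)).card : ℝ) * g E := by
        rw [← mul_sum, h2]
    _ ≤ (4 ^ (z + 2)) ^ k0 * (((4 ^ B) ^ n) ^ k0) ^ k *
        (4 ^ k0) ^ (∑ j, (v j).primeFactors.card) *
          ∑ E ∈ (P3 (c3 J) s).powerset, Q * g E :=
        mul_le_mul_of_nonneg_left (sum_le_sum h3) (by positivity)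
    _ = C * (4 ^ (z + 2)) ^ k0 * (D * ((4 ^ B) ^ n) ^ k0) ^ k * S θ *
          (NBK k0 κ s * ∏ j, (gw 1 c (s j) * rr (re (e j)) (s j))) *
          ((4 ^ k0) ^ (∑ j, (v j).primeFactors.card) *
            (∏ j, A ^ (v j).primeFactors.card * (gw 1 n (v j) / v j))) *
          (∏ j, 1 / (u j : ℝ)) / (Real.log y) ^ n := by
        rw [← mul_sum, hNBe, hQ, P3_c3, mul_pow D]
        ring
    _ ≤ C * (4 ^ (z + 2)) ^ k0 * (D * ((4 ^ B) ^ n) ^ k0) ^ k * S θ *
          (NBK k0 κ s * ∏ j, (gw 1 c (s j) * rr (re (e j)) (s j))) *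
          (∏ j, (A * (4 * 4 ^ k0)) ^ (v j).primeFactors.card * (gw 1 n (v j) / v j)) *
          (∏ j, 1 / (u j : ℝ)) / (Real.log y) ^ n := by
        refine div_le_div_of_nonneg_right ?_ (pow_nonneg hlog _)
        refine mul_le_mul_of_nonneg_right ?_ (prod_nonneg fun j _ => by positivity)
        refine mul_le_mul_of_nonneg_left hvA ?_
        have := hS θ
        exact mul_nonneg (by positivity) hs0
    _ = _ := by
        rw [← hGw y s hs]

end W440.QF
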