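import Pool.Agent.W440.QF.AVGA
import Pool.Agent.W925.RS.SUBBK
import Pool.Agent.W305.RS.ANTU
import Pool.Agent.W924.RS.RSA
import Pool.Agent.W240.RS.RVA
import Pool.Agent.W591.RK2.RVRU
import Pool.Agent.W358.RK2.GR

/-!
# AVGA: final form
-/

set_option autoImplicit false

namespace W440.QF

theorem avga_of (h1 : Pool.Agent.W307.QF.RANKE) (h2 : Pool.Agent.W307.QF.MAE) :
    Pool.Agent.W307.QF.AVGA :=
  avga_gen (Pool.Agent.W305.RS.ANTU.antu_of Pool.Agent.W924.RS.rsa Pool.Agent.W240.RS.rva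
    Pool.Agent.W591.RK2.ru Pool.Agent.W358.RK2.gr) Pool.Agent.W925.RS.subbk h1 h2

end W440.QF
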